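import Pool.Agent.Helper42.PW.Goals2

/-!
# Project W (MP_fc6b1e_nt), packet L_KEX: a Kummer extension of a local field, with the extension of an automorphism.
-/

set_option autoImplicit false

open Polynomial IntermediateField

noncomputable section

namespace Pool.Agent.Helper12.PW

/-- the extension of a homomorphism to `F(β)` -/
theorem kex_ext {Q F k : Type} [Field Q] [Field F] [Field k] [Algebra Q F] [Algebra F k] [Algebra Q k]
    [IsScalarTower Q F k] {H : Type} [Field H] [Algebra Q H] (β : k) (hint : IsIntegral F β)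
    (f : F →ₐ[Q] H) (ρ : H) (hρ : (minpoly F β).eval₂ (f : F →+* H) ρ = 0) :
    ∃ Φ : F⟮β⟯ →ₐ[Q] H, (∀ y : F, Φ (algebraMap F F⟮β⟯ y) = f y) ∧ Φ (AdjoinSimple.gen F β) = ρ := by
  let e := adjoinRootEquivAdjoin F hint
  let Φ0 : F⟮β⟯ →+* H := (AdjoinRoot.lift (f : F →+* H) ρ hρ).comp (e.symm : F⟮β⟯ ≃+* AdjoinRoot (minpoly F β)).toRingHom
  have h1 : ∀ y : F, Φ0 (algebraMap F F⟮β⟯ y) = f y := by
    intro y
    show AdjoinRoot.lift (f : F →+* H) ρ hρ (e.symm (algebraMap F F⟮β⟯ y)) = f y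
    rw [AlgEquiv.commutes]
    exact AdjoinRoot.lift_of hρ
  have h2 : Φ0 (AdjoinSimple.gen F β) = ρ := by
    show AdjoinRoot.lift (f : F →+* H) ρ hρ (e.symm (AdjoinSimple.gen F β)) = ρ
    have h3 : e.symm (AdjoinSimple.gen F β) = AdjoinRoot.root (minpoly F β) := adjoinRootEquivAdjoin_symm_apply_gen F hint
    rw [h3]
    exact AdjoinRoot.lift_root hρ
  refine ⟨{ Φ0 with commutes' := fun r => ?_ }, h1, h2⟩
  show Φ0 (algebraMap Q F⟮β⟯ r) = algebraMap Q H r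
  have h4 : algebraMap Q F⟮β⟯ r = algebraMap F F⟮β⟯ (algebraMap Q F r) :=
    IsScalarTower.algebraMap_apply Q F F⟮β⟯ r
  rw [h4, h1, AlgHom.commutes]

/-- the same for the endomorphisms, which are bijective -/
theorem kex_equiv {Q F k : Type} [Field Q] [Field F] [Field k] [Algebra Q F] [Algebra F k] [Algebra Q k]
    [IsScalarTower Q F k] [FiniteDimensional Q F] (β : k) (hint : IsIntegral F β)
    (f : F →ₐ[Q] F⟮β⟯) (ρ : F⟮β⟯) (hρ : (minpoly F β).eval₂ (f : F →+* F⟮β⟯) ρ = 0) :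
    FiniteDimensional Q F⟮β⟯ ∧
    ∃ Φ : F⟮β⟯ ≃ₐ[Q] F⟮β⟯, (∀ y : F, Φ (algebraMap F F⟮β⟯ y) = f y) ∧ Φ (AdjoinSimple.gen F β) = ρ := by
  have : FiniteDimensional F F⟮β⟯ := adjoin.finiteDimensional hint
  have : FiniteDimensional Q F⟮β⟯ := FiniteDimensional.trans Q F F⟮β⟯
  refine ⟨inferInstance, ?_⟩
  obtain ⟨Φ, h1, h2⟩ := kex_ext β hint f ρ hρ
  have hinj : Function.Injective Φ := Φ.toRingHom.injective
  have hsurj : Function.Surjective Φ := (LinearMap.injective_iff_surjective (f := Φ.toLinearMap)).1 hinj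
  exact ⟨AlgEquiv.ofBijective Φ ⟨hinj, hsurj⟩, h1, h2⟩

/-- PACKET L_KEX -/
theorem l_kex : Pool.Agent.Helper42.PW.L_KEX := by
  intro p hpf k _ _ _ 𝓕 _ ε α β hε hα hβ hβF g n c hgε hgα
  have hp : p.Prime := hpf.out
  have hβ0 : β ≠ 0 := by
    rintro rfl
    exact hβF 𝓕.zero_mem
  have hεk : IsPrimitiveRoot (ε : k) p := hε.map_of_injective (f := algebraMap 𝓕 k) (algebraMap 𝓕 k).injective
  have hirr : Irreducible (X ^ p - C α : Polynomial 𝓕) := by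
    refine X_pow_sub_C_irreducible_of_prime hp fun b hb => ?_
    have hb0 : b ≠ 0 := by
      rintro rfl
      rw [zero_pow hp.ne_zero] at hb
      exact hα hb.symm
    have hb0' : (b : k) ≠ 0 := by simpa using hb0
    have hbk : (b : k) ^ p = (α : k) := by rw [← hb]; rfl
    have h1 : (β / b) ^ p = 1 := by
      rw [div_pow, hβ, hbk]
      exact div_self (by simpa using hα)
    obtain ⟨i, _, hi⟩ := hεk.eq_pow_of_pow_eq_one h1
    apply hβF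
    have h2 : β = ((ε ^ i * b : 𝓕) : k) := by
      have h3 : ((ε ^ i * b : 𝓕) : k) = (ε : k) ^ i * b := rfl
      rw [h3, hi]
      field_simp
    rw [h2]
    exact (ε ^ i * b : 𝓕).2
  have hev : aeval β (X ^ p - C α : Polynomial 𝓕) = 0 := by
    simp only [map_sub, map_pow, aeval_X, aeval_C, hβ]
    exact sub_self _
  have hmin : minpoly 𝓕 β = X ^ p - C α :=
    (minpoly.eq_of_irreducible_of_monic hirr hev (monic_X_pow_sub_C _ hp.ne_zero)).symm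
  have hint : IsIntegral 𝓕 β := ⟨X ^ p - C α, monic_X_pow_sub_C _ hp.ne_zero, hev⟩
  have hgenp : (AdjoinSimple.gen 𝓕 β) ^ p = algebraMap 𝓕 𝓕⟮β⟯ α := by
    apply Subtype.ext
    exact hβ
  have hlift : ∀ (f : 𝓕 →ₐ[ℚ_[p]] 𝓕⟮β⟯) (ρ : 𝓕⟮β⟯), ρ ^ p = f α →
      (minpoly 𝓕 β).eval₂ (f : 𝓕 →+* 𝓕⟮β⟯) ρ = 0 := by
    intro f ρ h
    rw [hmin]
    simp only [eval₂_sub, eval₂_pow, eval₂_X, eval₂_C, h]
    exact sub_self _
  -- the two automorphisms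
  let ι : 𝓕 →ₐ[ℚ_[p]] 𝓕⟮β⟯ := IsScalarTower.toAlgHom ℚ_[p] 𝓕 𝓕⟮β⟯
  obtain ⟨hfd, γ, hγ1, hγ2⟩ := kex_equiv β hint ι (ι ε * AdjoinSimple.gen 𝓕 β) (hlift _ _ (by
    rw [mul_pow, hgenp, ← map_pow, hε.pow_eq_one, map_one, one_mul]
    rfl))
  obtain ⟨_, g', hg1, hg2⟩ := kex_equiv β hint (ι.comp (g : 𝓕 →ₐ[ℚ_[p]] 𝓕))
    (AdjoinSimple.gen 𝓕 β ^ n * ι c) (hlift _ _ (by
    have h1 : (ι.comp (g : 𝓕 →ₐ[ℚ_[p]] 𝓕)) α = ι (g α) := rfl
    rw [h1, hgα, map_mul, map_pow, map_pow, mul_pow, ← pow_mul, mul_comm n p, pow_mul, hgenp]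
    rfl))
  have hspan : ∀ y : 𝓕⟮β⟯, ∃ z : ℕ → 𝓕, y = ∑ j ∈ Finset.range p, ι (z j) * AdjoinSimple.gen 𝓕 β ^ j := by
    intro y
    let pb := adjoin.powerBasis hint
    have hdim : pb.dim = p := by
      show (minpoly 𝓕 β).natDegree = p
      rw [hmin, natDegree_X_pow_sub_C]
    have hgen : pb.gen = AdjoinSimple.gen 𝓕 β := rfl
    obtain ⟨f, hf, hy⟩ := pb.exists_eq_aeval y
    rw [hdim] at hf
    refine ⟨fun j => f.coeff j, ?_⟩
    rw [hy, aeval_eq_sum_range' hf, hgen]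
    refine Finset.sum_congr rfl fun j _ => ?_
    rw [Algebra.smul_def]
    rfl
  have hcomm : ∀ y : 𝓕⟮β⟯, g' (γ y) = γ (g' y) := by
    intro y
    obtain ⟨z, hz⟩ := hspan y
    have hγι : ∀ y : 𝓕, γ (ι y) = ι y := hγ1
    have hgι : ∀ y : 𝓕, g' (ι y) = ι (g y) := hg1
    rw [hz, map_sum, map_sum, map_sum, map_sum]
    refine Finset.sum_congr rfl fun j _ => ?_
    simp only [map_mul, map_pow, hγι, hgι, hγ2, hg2, hgε]
    ring
  refine ⟨𝓕⟮β⟯.restrictScalars ℚ_[p], fun x hx => (algebraMap 𝓕 𝓕⟮β⟯ ⟨x, hx⟩).2, AdjoinSimple.gen 𝓕 β, γ, g',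
    hfd, rfl, hspan, hγ1, hγ2, hg1, hg2, hcomm⟩

end Pool.Agent.Helper12.PW
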