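import Pool.Agent.Helper85.PW.NGRP

/-!
# Project W (MP_fc6b1e_nt), packet N_CHG: the local norms depend only on the local class of `α`
-/

namespace Pool.Agent.Helper12.PW

open NumberField Polynomial Module IsDedekindDomain
open Pool.Agent.Helper42.PW Pool.Agent.Helper85.PW

/-- **N_CHG** -/
theorem n_chg (h1 : N_ALG) (h2 : N_CNT) (h3 : N_HEN) : N_CHG := by
  intro p hp F _ _ W α α' hα hα' hpw x hx
  obtain ⟨z, hz⟩ := hx
  obtain ⟨y, hy⟩ := hpw
  have hy0 : y ≠ 0 := by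
    rintro rfl
    rw [zero_pow hp.out.ne_zero, mul_zero] at hy
    exact cl_ne hy rfl
  have hxn := cl_ne hz
  have hx0 : x ≠ 0 := left_ne_zero_of_mul hxn
  have hn0 : nf p α z ≠ 0 := right_ne_zero_of_mul hxn
  have hp0 : (p : F) ≠ 0 := Nat.cast_ne_zero.2 hp.out.ne_zero
  have hVn : W.valuation F (nf p α z) ≠ 0 := (Valuation.ne_zero_iff _).2 hn0
  have hVp : W.valuation F (p : F) ^ 3 ≠ 0 := pow_ne_zero _ ((Valuation.ne_zero_iff _).2 hp0)
  obtain ⟨n₀, hg1, hg2⟩ := WithZero.exists_exp_neg_natCast_lt_and_lt hVn (mul_ne_zero hVn hVp)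
  obtain ⟨N, hN⟩ := h2 p F W α z (WithZero.exp (-(n₀ : ℤ))) WithZero.exp_ne_zero
  have hc0 : α' * (y ^ p)⁻¹ ≠ 0 := mul_ne_zero hα' (inv_ne_zero (pow_ne_zero _ hy0))
  have hVc : W.valuation F (α' * (y ^ p)⁻¹) ≠ 0 := (Valuation.ne_zero_iff _).2 hc0
  have hq0 : WithZero.exp (-(N : ℤ)) / W.valuation F (α' * (y ^ p)⁻¹) ≠ 0 :=
    div_ne_zero WithZero.exp_ne_zero hVc
  obtain ⟨m, hm, -⟩ := WithZero.exists_exp_neg_natCast_lt_and_lt hq0 hq0
  obtain ⟨v, hv1, hv2⟩ := h3 p F W (α / α' * y ^ p) hy m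
  have hv0 : v ≠ 0 := by
    rintro rfl
    rw [zero_sub, Valuation.map_neg, map_one] at hv1
    exact lt_irrefl _ hv1
  have e1 : α' * (v / y) ^ p - α =
      -(α' * (y ^ p)⁻¹ * (α / α' * y ^ p - v ^ p)) := by
    rw [div_pow]
    field_simp
    ring
  have h4 : W.valuation F (α' * (v / y) ^ p - α) ≤ WithZero.exp (-(N : ℤ)) := by
    rw [e1, Valuation.map_neg, map_mul]
    refine (mul_le_mul_right (hv2.trans hm.le) _).trans ?_
    rw [mul_div_cancel₀ _ hVc]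
  have h5 := hN (α' * (v / y) ^ p) z h4 (fun j _ => by rw [sub_self, map_zero]; exact zero_le)
  rw [h1.2.2.1 p F α' (v / y) z] at h5
  refine ⟨fun j ↦ z j * (v / y) ^ j, ?_⟩
  have h6 : Cl p W (nf p α' (fun j ↦ z j * (v / y) ^ j) / nf p α z) := by
    have e2 : nf p α' (fun j ↦ z j * (v / y) ^ j) / nf p α z - 1 =
        (nf p α' (fun j ↦ z j * (v / y) ^ j) - nf p α z) / nf p α z := by
      rw [sub_div, div_self hn0]
    unfold Cl
    rw [e2, map_div₀, div_lt_one₀ (zero_lt_iff.2 hVn), div_le_iff₀ (zero_lt_iff.2 hVn)]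
    exact ⟨h5.trans_lt hg1, h5.trans (hg2.le.trans_eq (mul_comm _ _))⟩
  have e3 : x * nf p α' (fun j ↦ z j * (v / y) ^ j) =
      (x * nf p α z) * (nf p α' (fun j ↦ z j * (v / y) ^ j) / nf p α z) := by
    field_simp
  rw [e3]
  exact cl_mul hz h6

end Pool.Agent.Helper12.PW
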