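import Pool.Agent.Helper42.PW.Goals3
import Pool.Agent.Helper20.RP.TAM
import Pool.Agent.Helper79.RP.HIL
import Pool.Agent.Helper86.PPO.OTRV

/-!
# Project W (MP_fc6b1e_nt), packet W_HIL: from units to Selmer elements.
-/

set_option autoImplicit false

namespace Pool.Agent.Helper12.PW

open NumberField Polynomial Module IsDedekindDomain
open Pool.Agent.Helper51.SigLeo
open Pool.Agent.Helper51.RP Pool.Agent.Helper42.RD Pool.Agent.Helper79.RP Pool.Agent.Helper42.PW
open Pool.Agent.Helper77.RL (LData up)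

/-- elements of `H = M(s)` as polynomials of degree less than `p` in `s` -/
theorem gen_lt {M H : Type} [Field M] [Field H] [Algebra M H] {p : ℕ} (hp : p.Prime) (ε a : M)
    (s : H) (γ : H ≃ₐ[M] H) (hε : IsPrimitiveRoot ε p) (hs : s ≠ 0) (hdeg : finrank M H = p)
    (hpow : s ^ p = algebraMap M H a) (hγ : γ s = algebraMap M H ε * s) (y : H) :
    ∃ z : ℕ → M, y = ∑ j ∈ Finset.range p, algebraMap M H (z j) * s ^ j := by
  obtain ⟨q, hq⟩ := gen hp ε s γ hε hs hdeg hγ y
  have hmon : (X ^ p - C a : M[X]).Monic := monic_X_pow_sub_C _ hp.ne_zero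
  have hroot : aeval s (X ^ p - C a : M[X]) = 0 := by
    simp [hpow]
  have h1 : aeval s (q %ₘ (X ^ p - C a)) = y := by
    rw [aeval_modByMonic_eq_self_of_root hroot, hq]
  have h2 : (q %ₘ (X ^ p - C a)).natDegree < p := by
    have h3 := natDegree_modByMonic_lt q hmon (by
      intro h
      have h4 := congrArg natDegree h
      rw [natDegree_X_pow_sub_C, natDegree_one] at h4
      exact hp.ne_zero h4)
    rwa [natDegree_X_pow_sub_C] at h3
  refine ⟨fun j => (q %ₘ (X ^ p - C a)).coeff j, ?_⟩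
  rw [← h1, aeval_eq_sum_range' h2]
  exact Finset.sum_congr rfl fun j _ => Algebra.smul_def _ _

/-- a norm from `M(s)` is a value of the norm form -/
theorem nf_norm (h2 : N_EVL) (h3 : N_ALG) {M H : Type} [Field M] [Field H] [Algebra M H] {p : ℕ}
    [hpf : Fact p.Prime] (ε a : M)
    (s : H) (γ : H ≃ₐ[M] H) (hε : IsPrimitiveRoot ε p) (ha : a ≠ 0) (hdeg : finrank M H = p)
    (hpow : s ^ p = algebraMap M H a) (hγ : γ s = algebraMap M H ε * s) (y : H) (hy : y ≠ 0) (x : M)
    (hx : algebraMap M H x = ∏ j ∈ Finset.range p, (γ ^ j) y) :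
    ∃ z : ℕ → M, x * nf p a z = 1 := by
  have hp := hpf.out
  have hs : s ≠ 0 := by
    rintro rfl
    rw [zero_pow hp.ne_zero] at hpow
    exact ha ((algebraMap M H).injective (by rw [map_zero]; exact hpow.symm))
  obtain ⟨z, hz⟩ := gen_lt hp ε a s γ hε hs hdeg hpow hγ y⁻¹
  refine ⟨z, ?_⟩
  apply (algebraMap M H).injective
  have hγs : ∀ i : ℕ, (γ ^ i) s = algebraMap M H ε ^ i * s := by
    intro i
    induction i with
    | zero => simp
    | succ i ih =>
      rw [pow_succ', AlgEquiv.mul_apply, ih, map_mul, map_pow, AlgEquiv.commutes, hγ, pow_succ]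
      ring
  have h4 : algebraMap M H (nf p a z) = ∏ i ∈ Finset.range p, (γ ^ i) y⁻¹ := by
    rw [h3.1 p M H (algebraMap M H) a z, ← hpow,
      h2 p H (algebraMap M H ε) s (hε.map_of_injective (algebraMap M H).injective) hs]
    refine Finset.prod_congr rfl fun i _ => ?_
    rw [hz, map_sum]
    refine Finset.sum_congr rfl fun j _ => ?_
    rw [map_mul, map_pow, hγs, AlgEquiv.commutes]
  rw [map_mul, h4, hx, ← Finset.prod_mul_distrib, map_one]
  refine Finset.prod_eq_one fun i _ => ?_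
  rw [← map_mul, mul_inv_cancel₀ hy, map_one]

/-- PACKET W_HIL -/
theorem w_hil (h1 : W_RM1) (h2 : N_EVL) (h3 : N_ALG) : Pool.Agent.Helper42.PW.W_HIL := by
  intro p hpf k _ _ _ _ hι L K M H M₁ H₁ Ω _ _ _ _ _ _ _ _ _ _ _ _ _ _ _ _ _ _ _ _ _ _
    m δ γ δ' γ₁ T ε a s P hP hd hT u hu1 hu2 hu3 y x hy hx hpol
  have h5 : S_TAM := Pool.Agent.Helper20.RP.s_tam
  have hp := hpf.out
  have hch : CharZero k := charZero_of_padic p
  have hprod : ∀ z : H, ∏ j ∈ Finset.range p, (γ₁ ^ j) (algebraMap H H₁ z) =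
      algebraMap H H₁ (∏ j ∈ Finset.range p, (γ ^ j) z) := by
    intro z
    rw [map_prod]
    exact Finset.prod_congr rfl fun j _ => map_pow_ext hd.ext j z
  refine ⟨?_, ?_⟩
  · intro W
    have hy1 : algebraMap H H₁ (y : H) ≠ 0 := (_root_.map_ne_zero _).2 y.ne_zero
    set y₁ : H₁ˣ := Units.mk0 (algebraMap H H₁ (y : H)) hy1 with hy₁
    have hx1 : algebraMap M₁ H₁ (algebraMap M M₁ (x : M)) =
        ∏ j ∈ Finset.range p, (γ₁ ^ j) (y₁ : H₁) := by
      rw [hy₁, Units.val_mk0, hprod, ← hx, hd.compat]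
    have hrm := h1 p M₁ H₁ ε a s γ₁ hd.prim hd.ne hd.degH₁ hd.pow hd.γs y₁
        (Units.map (RingOfIntegers.mapRingHom (algebraMap H H₁)) (u 0))
        (algebraMap M M₁ (x : M)) (by
          rw [hy₁, Units.val_mk0, hd.ext, hy, map_mul]
          rfl) hx1 W
    refine ⟨fun hWp => ⟨fun h => hrm.1 hWp h, fun h => ?_⟩, fun _ => ⟨?_, fun h => hrm.2 h⟩⟩
    · exact h5 p M₁ H₁ ε a s γ₁ hd.prim hd.ne hd.degH₁ hd.pow
        hd.γs y₁ (algebraMap M M₁ (x : M)) hx1 W h
    · obtain ⟨z, hz⟩ := nf_norm h2 h3 ε a s γ₁ hd.prim hd.ne hd.degH₁ hd.pow hd.γs (y₁ : H₁)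
        y₁.ne_zero (algebraMap M M₁ (x : M)) hx1
      refine ⟨z, ?_, ?_⟩
      · rw [hz, sub_self, map_zero]
        exact zero_lt_one
      · rw [hz, sub_self, map_zero]
        exact zero_le
  · -- the logarithmic condition
    have hγ0 : ∃ g₀ : H ≃ₐ[M] H, ∀ z, g₀ z = γ z :=
      ⟨AlgEquiv.ofRingEquiv (f := (γ : H ≃+* H)) hd.γM, fun z => rfl⟩
    obtain ⟨g₀, hg₀⟩ := hγ0
    have hfin : FiniteDimensional M H := FiniteDimensional.of_finrank_pos (by
      rw [hd.degH]; exact hp.pos)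
    have hg₀p : ∀ (j : ℕ) (z : H), (g₀ ^ j) z = (γ ^ j) z := by
      intro j
      induction j with
      | zero => intro z; rfl
      | succ j ih =>
        intro z
        rw [pow_succ', pow_succ', AlgEquiv.mul_apply, AlgEquiv.mul_apply, ih, hg₀]
    have hord : orderOf g₀ = p := by
      rw [← hd.γo]
      apply Nat.dvd_antisymm
      · rw [orderOf_dvd_iff_pow_eq_one]
        ext z
        rw [hg₀p, pow_orderOf_eq_one]
        rfl
      · rw [orderOf_dvd_iff_pow_eq_one]
        ext z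
        rw [← hg₀p, pow_orderOf_eq_one]
        rfl
    have hcard : Nat.card (H ≃ₐ[M] H) = finrank M H := by
      apply le_antisymm
      · rw [Nat.card_eq_fintype_card]
        exact AlgEquiv.card_le
      · rw [hd.degH, ← hord]
        exact Nat.le_of_dvd Nat.card_pos (orderOf_dvd_natCard g₀)
    have hgal : IsGalois M H := IsGalois.of_card_aut_eq_finrank _ _ hcard
    have htop : ∀ g : H ≃ₐ[M] H, ∃ j : ℕ, g = g₀ ^ j := by
      intro g
      have h6 : Subgroup.zpowers g₀ = ⊤ := by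
        apply Subgroup.eq_top_of_card_eq
        rw [Nat.card_zpowers, hord, hcard, hd.degH]
      have h7 : g ∈ Subgroup.zpowers g₀ := by rw [h6]; trivial
      rw [← mem_powers_iff_mem_zpowers] at h7
      obtain ⟨j, hj⟩ := h7
      exact ⟨j, hj.symm⟩
    have hLD : LData p m 1 δ δ' := by
      refine ⟨hgal, by rw [pow_one, hd.degH], hd.δM, ?_, ?_⟩
      · rw [← hd.δo]
        exact pow_orderOf_eq_one δ'
      · intro g z
        obtain ⟨j, rfl⟩ := htop g
        rw [hg₀p, hg₀p]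
        have := comm_pow hd.comm j 1 z
        rwa [pow_one] at this
    refine Pool.Agent.Helper86.PPO.l_lsd p k hι L K M H Ω m 1 δ δ' P hP hLD T hT x hpol ?_
    intro N
    obtain ⟨b, hb1, hb2⟩ := hu2 N
    have hb0 : (b : H) ≠ 0 := RingOfIntegers.coe_ne_zero_iff.2 b.ne_zero
    have hy' : γ ((y : H) * b) = (u N : H) * ((y : H) * b) := by
      rw [map_mul, hy]
      calc (u 0 : H) * (y : H) * γ (b : H) = (y : H) * ((u 0 : H) * γ (b : H)) := by ring
        _ = (y : H) * ((u N : H) * b) := by rw [hb2]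
        _ = _ := by ring
    have hyb : (y : H) * (b : H) ≠ 0 := mul_ne_zero y.ne_zero hb0
    have hx' : algebraMap M H (x : M) = ∏ j ∈ Finset.range p, (γ ^ j) ((y : H) * (b : H)) := by
      have : ∀ j ∈ Finset.range p, (γ ^ j) ((y : H) * (b : H)) =
          (γ ^ j) (y : H) * (γ ^ j) (b : H) := fun j _ => map_mul _ _ _
      rw [Finset.prod_congr rfl this, Finset.prod_mul_distrib, hb1, mul_one, hx]
    set V : ℕ → Hˣ := fun j => Units.map ((algebraMap (𝓞 H) H : 𝓞 H →+* H) : 𝓞 H →* H) (VV γ (u N) j) with hV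
    have hup : up x * (Units.mk0 _ hyb)⁻¹ ^ p = ∏ j ∈ Finset.range p, V j := by
      rw [inv_pow, mul_inv_eq_iff_eq_mul]
      apply Units.ext
      have e1 : ((up x : Hˣ) : H) = algebraMap M H (x : M) := rfl
      rw [e1, hx', Units.val_mul, Units.coe_prod, Units.val_pow_eq_pow_val, Units.val_mk0,
        ← Finset.card_range p, ← Finset.prod_const, Finset.card_range, ← Finset.prod_mul_distrib]
      exact Finset.prod_congr rfl fun j _ => VV_coe γ (u N) hy' j
    refine ⟨(Units.mk0 _ hyb)⁻¹, fun τ hτ => ?_⟩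
    have hfin2 : Sm L N (Units.map (τ : H →* k) (up x * (Units.mk0 _ hyb)⁻¹ ^ p)) := by
      rw [hup, map_prod]
      refine Sm.prod _ _ fun j _ => ?_
      have e2 : Units.map (τ : H →* k) (V j) =
          ∏ l ∈ Finset.range j,
            Units.map (τ.comp (algebraMap (𝓞 H) H) : 𝓞 H →* k) (UU γ (u N) l) := by
        rw [← map_prod]
        rfl
      rw [e2]
      refine Sm.prod _ _ fun l _ => ⟨norm_unit (p := p) τ (UU γ (u N) l), ?_⟩
      exact hu3 N l τ hτ
    exact hfin2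

end Pool.Agent.Helper12.PW
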